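import Mathlib

set_option autoImplicit false

namespace Pool.Agent.Results.MP_8697f8_lc.PartTwo

open Set

/-- proper ideal on `ℕ` containing all finite sets -/
structure IsIdeal (I : Set (Set ℕ)) : Prop where
  proper : univ ∉ I
  fin : ∀ A : Set ℕ, A.Finite → A ∈ I
  sub : ∀ A B : Set ℕ, A ⊆ B → B ∈ I → A ∈ I
  union : ∀ A B : Set ℕ, A ∈ I → B ∈ I → A ∪ B ∈ I

/-- Katetov order -/
def Kat (A J : Set (Set ℕ)) : Prop := ∃ f : ℕ → ℕ, ∀ a ∈ A, f ⁻¹' a ∈ J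

/-- disjoint sum, with `(i, n)` coded as `2 * n + i` -/
def dsum (J₀ J₁ : Set (Set ℕ)) : Set (Set ℕ) :=
  {A | {n | 2 * n ∈ A} ∈ J₀ ∧ {n | 2 * n + 1 ∈ A} ∈ J₁}

/-- the Katetov number, `⊤` for the empty minimum -/
noncomputable def pK (I J : Set (Set ℕ)) : WithTop Cardinal.{0} :=
  sInf {c | ∃ A ⊆ I, ¬Kat A J ∧ c = (Cardinal.mk A : Cardinal.{0})}

theorem img {I : Set (Set ℕ)} (h : IsIdeal I) (g : ℕ → ℕ) (hg : g.Surjective) :
    IsIdeal {A | g '' A ∈ I} :=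
  ⟨by simpa [hg.range_eq] using h.proper, fun A a => h.fin _ (a.image g),
    fun A B a => h.sub _ _ (image_mono a), fun A B a b => by simpa [image_union] using h.union _ _ a b⟩

/-- Statement (ii) fails. -/
theorem result : ∃ I J₀ J₁ : Set (Set ℕ), IsIdeal I ∧ IsIdeal J₀ ∧ IsIdeal J₁ ∧
    pK I (J₀ ∩ J₁) < ⊤ ∧ pK I (dsum J₀ J₁) = ⊤ := by
  let I : Set (Set ℕ) := {A | ∃ C, ∀ n, (A ∩ Ico (n * n) (n * n + n)).ncard ≤ C}
  have f : ∀ (A : Set ℕ) n, (A ∩ Ico (n * n) (n * n + n)).Finite := fun A n =>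
    (finite_Ico _ _).inter_of_right _
  have hI : IsIdeal I := by
    refine ⟨fun ⟨C, h⟩ => by simpa using h (C + 1), fun A a => ⟨_, fun n =>
      ncard_le_ncard inter_subset_left a⟩, fun A B a ⟨C, h⟩ => ⟨C, fun n =>
        (ncard_le_ncard (inter_subset_inter_left _ a) (f B n)).trans (h n)⟩,
      fun A B ⟨C, h⟩ ⟨D, k⟩ => ⟨C + D, fun n => ?_⟩⟩
    rw [union_inter_distrib_right]
    exact (ncard_union_le _ _).trans (add_le_add (h n) (k n))
  refine ⟨I, _, _, hI, img hI (fun x => x.unpair.1) fun n => ⟨Nat.pair n 0, by simp⟩,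
    img hI (fun x => x.unpair.2) fun n => ⟨Nat.pair 0 n, by simp⟩,
    lt_of_le_of_lt (sInf_le (α := WithTop Cardinal.{0}) (a := (Cardinal.mk I : Cardinal.{0}))
      (mem_ofPred.2 ⟨I, subset_rfl, ?_, rfl⟩))
      (WithTop.coe_lt_top _), ?_⟩
  · rintro ⟨g, h⟩
    by_cases k : ∃ n : ℕ, (range fun m => g (Nat.pair n m)).Finite
    · obtain ⟨n, k⟩ := k
      refine hI.proper (hI.sub _ _ (fun m _ => ?_) (h _ (hI.fin _ k)).2)
      exact ⟨Nat.pair n m, ⟨m, rfl⟩, by simp⟩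
    choose y h1 h2 using fun n b => Set.Infinite.exists_gt (not_exists.1 k n) b
    let x : ℕ → ℕ := fun n => Nat.rec (y 0 0) (fun n t => y (n + 1) (2 * t)) n
    have m : ∀ a b, a < b → 2 * x a < x b := fun a b l => by
      induction b, l using Nat.le_induction with
      | base => exact h2 _ _
      | succ b l ih => exact (by omega : 2 * x a < 2 * x b).trans (h2 _ _)
    refine hI.proper (hI.sub _ _ (fun n _ => ?_) (h (range x) ⟨1, fun n => ?_⟩).1)
    · obtain ⟨m, e⟩ : x n ∈ range fun m => g (Nat.pair n m) := by cases n <;> exact h1 _ _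
      exact ⟨Nat.pair n m, ⟨n, e.symm⟩, by simp⟩
    · rw [ncard_le_one (f _ n)]
      rintro _ ⟨⟨a, rfl⟩, a1, a2⟩ _ ⟨⟨b, rfl⟩, b1, b2⟩
      have := Nat.le_mul_self n
      rcases lt_trichotomy a b with l | rfl | l
      exacts [by have := m a b l; omega, rfl, by have := m b a l; omega]
  · refine sInf_eq_top.2 fun c ⟨A, a, b, _⟩ => (b ⟨fun x => if x % 2 = 0 then (x / 2).unpair.1
      else (x / 2).unpair.2, fun s t => ⟨hI.sub _ _ ?_ (a t), hI.sub _ _ ?_ (a t)⟩⟩).elim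
    · rintro _ ⟨n, h, rfl⟩
      simpa using h
    · rintro _ ⟨n, h, rfl⟩
      simpa [Nat.mul_add_div] using h

end Pool.Agent.Results.MP_8697f8_lc.PartTwo
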